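import Pool.Agent.U231.FR.Fg

/-!
# Finite generation in negative weights for products with varieties of Fermat type

Let `κ` be a finite field with `q` elements, of characteristic `p`, and `𝒱` a class of smooth projective
varieties over `κ`, closed under products, with Chow groups `A` with rational coefficients and a Weil
cohomology theory `H` (framework of helper492 and helper484: `TheoryData`, `IsChow`, `IsWeil`). Let `X_i` be
varieties in `𝒱` **of Fermat type** of different prime degrees `N_i` and of lengths at most `s_i`
(`IsFermatType`): the cohomology of `X_i` is generated by the classes of cycles and a subspace `T_i`, stable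
under the Frobenius, such that each eigenvalue of the Frobenius on `T_i` is, up to a root of unity and a
power of `q`, a product `∏_{a ∈ A} g(θ ^ a)` of at most `s_i` Gauss sums over `κ`, where `θ` is a
multiplicative character of `κ` of order `N_i`, and where the multiset `A + p A + ⋯ + p ^ (f - 1) A`, `f` the
order of `p` modulo `N_i`, is not symmetric, i.e. not invariant under `a ↦ -a`.

By the theorem of Weil the diagonal hypersurfaces `∑ c_j x_j ^ N = 0` of dimension `n` over `κ` (for
`q ≡ 1` modulo `N`) and their powers and products are of this form with `s = n + 2` (for products: the sum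
of these numbers), if the classes with symmetric `A + p A + ⋯` are algebraic. For `p ≡ 1` modulo `N` the
condition on the multiset is that `A` is not symmetric, and the algebraicity for symmetric `A` is known
for `c_j = 1`, and in general after a finite extension of `κ` (linear subspaces, Ran, Shioda and Katsura).

Let `U` be **any** separated scheme of finite type over `κ`, and `Z` **any** variety in `𝒱`. For `X` in `𝒱`
and integers `n`, `i` let `G(X, n, i) = H^i((X × U)_et, ℤ^c(n))` be the groups of the question for the
arithmetic scheme `X × U`, and for an integer `m` let `T_m^r(X) = CH_{dim X - r}(X × U, m) ⊗ ℚ` be the higher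
Chow groups. The following known facts are used (`IsCycleHomology`, for `n < 0`):

* `H^i((X × U)_et, ℤ^c(n)) ⊗ ℚ = CH_n(X × U, m) ⊗ ℚ = T_m^{dim X - n}(X)` with `m = - i - 2 n` (Geisser);
* the torsion of `H^i(Y_et, ℤ^c(n))` is finite for every `Y` separated of finite type over `κ`: it is a quotient
  of `H^{i-1}(Y_et, ℚ/ℤ^c(n))`, which is finite for `n < 0` (Deligne, Gabber);
* the orders of the groups `H^i(Y_et, ℤ^c(n)) / ℓ ^ r` are bounded for a prime `ℓ ≠ p`: they are subgroups of
  `H^i(Y_et, ℤ^c(n) / ℓ ^ r)`, dual to `H_c^{1-i}(Y_et, ℤ/ℓ ^ r (n))`, and `H_c^j(Y_et, ℤ_ℓ(n))` is finite for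
  `n < 0`, as the Frobenius eigenvalues on `H_c^j` are algebraic integers (Deligne).

On `T_m` act the correspondences between the varieties in `𝒱`, and the inverse `φ` of the push-forward
along the Frobenius endomorphism of `U`, which commutes with the correspondences; as the push-forward along
the Frobenius endomorphism of `X × U` is `q ^ n` on `CH_n(X × U, m)`, the product of `φ` and of the pull-back
along the Frobenius endomorphism of `X` is `q ^ r` on `T_m^r(X)` (`IsCycleTheory`). Let `χ` be a polynomial
with rational coefficients, `χ (0) ≠ 0`, with `χ (φ) = 0` (for `U` a point `χ = x - 1`; for general `U` it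
exists if the motive of `U` is finite-dimensional, and its roots are inverses of Frobenius eigenvalues of
`U`), let `B` be the set of the products `β` of an eigenvalue of Frobenius on `H(Z)` and of a complex root of
`χ`, and suppose that the `β` are algebraic (theorem of Deligne). Let `f_i` be the order of `p` modulo
`N_i`. Suppose that for all `β` in `B` and all `i` there is an `m > 0` such that (`IsSmallBase`)

* the field `F = ℚ(β ^ m) ∩ ℚ(ζ_{N_i})`, `ζ_N` a root of unity of order `N`, is real (equivalently
  `(N_i - 1) / [F : ℚ]` is even); for instance `N_i` is odd and unramified in the field `ℚ(β ^ m)`;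
* or `N_i > s_i f_i [F : ℚ] + 1`; or `N_i = 2`.

So the theorem applies to all prime numbers `N_i` with finitely many exceptions, which depend only on
the fields `ℚ(β)`. For the other primes there is no condition at all on the `X_i`. Finally suppose that
homologically trivial self-correspondences of degree zero of the products `V` are nilpotent. This is
known for example if `Z` is dominated by a product of curves and the `X_i` are diagonal hypersurfaces
(Kimura; Shioda and Katsura).

**Theorem.** Let `V` be the product of `Z` and of finitely many pairwise different `X_i`, and
`v = dim V - dim Z`.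
* For every `n < 0` and every `i`: the group `H^i((V × U)_et, ℤ^c(n))` is finitely generated **if and only
  if** the groups `H^{i+2j}((Z × U)_et, ℤ^c(n-j))` are finitely generated for `0 ≤ j ≤ v`.
* The statement of the question (all `n < 0`, all `i`) holds for `V × U` if and only if it holds for
  `Z × U`.
* If `H^i((V × U)_et, ℤ^c(n))` is finitely generated, then it is finite.

So multiplying a scheme of finite type over `κ` of the form `Z × U` by diagonal hypersurfaces of different
prime degrees changes nothing in the question, and finite generation is lifted from the weights
`n - v, …, n` on `Z × U`, in the corresponding degrees, to the weight `n` on `V × U`. No case of the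
conjecture of Tate or of Parshin is assumed.

The proof. A group `G` with finite torsion and with bounded quotients `G / ℓ ^ r` is finitely generated
if and only if it is a torsion group (Nakayama's lemma for the stationary chain of the `ℓ ^ r G`), i.e. if
and only if `G ⊗ ℚ = 0`. The vanishing of the rational groups for `V × U` is equivalent to the vanishing
for `Z × U` in the weights between `r - v` and `r` (`U231/FR/Va`, see my hand-in
`MP_de59b4_ag.FermatFactors`: by the theorem of Stickelberger and `L(1, χ) ≠ 0` no product of Frobenius
eigenvalues on the `T_i`, `i ∈ I ≠ ∅`, and of a `β` is a power of `q` up to a root of unity; projectors in the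
ring generated by the Frobenius and the algebraic cycles, helper876, `N876/CG`).

helper231 (`Pool/Agent/U231/FF`, `U231/FR`); built on the libraries of helpers 484, 492, 550, 876.
-/

set_option autoImplicit false

open Polynomial CategoryTheory AlgebraicGeometry

namespace Pool.Agent.Results.MP_e93a6a_ag.FermatFactors

open Pool.Agent.H914 Pool.Agent.H914.VarClass Pool.Agent.H914.VarClass.Obj Pool.Agent.W492.BB
  Pool.Agent.W484.CK Pool.Agent.U231.FF Pool.Agent.U231.FR.Base Pool.Agent.U231.FR.Fg

/-- **Finite generation of the étale cohomology of the cycle complexes in negative weights for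
products of arbitrary schemes over a finite field with varieties of Fermat type of different prime
degrees.** -/
theorem result (p : ℕ) [Fact p.Prime] (κ : Type) [Field κ] [Fintype κ] [CharP κ p] {ι : Type}
    (N s : ι → ℕ) {𝒱 : VarClass κ} (A : TheoryData.{0, 0, 0} 𝒱 ℚ) [IsChow A] {K : Type} [Field K]
    [IsAlgClosed K] [CharZero K] (H : WeilTheoryData.{0, 0, 0} A K) [IsWeil H] (τ : K →+* ℂ)
    (F : ∀ X : 𝒱.Obj, X ⟶ X) (X : ι → 𝒱.Obj) (Z : 𝒱.Obj) (χ : ℚ[X])
    (h : IsFermatSystem p N s H τ F X Z χ) (hnil : ∀ L, Nilpotence H (productOf X Z L))
    (T : ℤ → MotivicData A) (φ : ∀ m X, (T m).M X →ₗ[ℚ] (T m).M X)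
    (hT : ∀ m, IsCycleTheory (T m) (φ m) F (Fintype.card κ)) (hT0 : ∀ m, IsRoot (T m) (φ m) χ)
    (C : CycleGroups T) (hC : IsCycleHomology C) (L : List ι) (hL : L.Nodup) :
    Conclusions C X Z L :=
  main p κ N s A H τ F X Z χ h hnil T φ hT hT0 C hC L hL

end Pool.Agent.Results.MP_e93a6a_ag.FermatFactors
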