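import Pool.Agent.U586.MU.Loc
import Pool.Agent.Q282.UZ.Fam

/-!
# MP_e93a6a_ag: étale motivic cohomology in negative weights and realization spaces

For a separated scheme `X` of finite type over `ℤ` (an arithmetic scheme) let `H n i X = H^i(X_et, ℤ^c(n))`.
The theorem says: for every single weight `n < 0`, every single degree `i` and every dimension `d`
separately, the finite generation of `H^i(X_et, ℤ^c(n))` for all arithmetic schemes of dimension at most
`d` is equivalent to the finite generation for very special smooth affine schemes over `ℤ` or over prime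
fields: the integral smooth realization spaces of line arrangements (of matroids of rank 3) of dimension
at most `d`, and also the integral smooth schemes of solutions of unit equations of dimension at most `d`.
The same is true with every Serre class of abelian groups in the place of the finitely generated groups
(finite groups, groups of finite rank, torsion groups, …), inside every hereditary class of schemes and
with every generic property in the place of smoothness.
-/

set_option autoImplicit false

open CategoryTheory AlgebraicGeometry MvPolynomial Pool.Agent.Y116.UV Pool.Agent.Q282.UZ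
  Pool.Agent.U586.MU

universe w

namespace Pool.Agent.Results.MP_e93a6a_ag.RealizationSpaces

/-- `X` is the realization space over `ℤ` of a configuration type: the scheme of the configurations of
points `e ∈ E` of the projective plane, in the coordinates given by a projective frame, for which exactly
the triples in a given set are collinear. -/
def IsRealizationSpace (X : Sch ℤ) : Prop :=
  ∃ (E : Type) (_ : Fintype E) (π : Cfg E), X = π.space ℤ

/-- `X` is the scheme over `ℤ` of the families of units `x_i, y_i`, `i ∈ I`, with `x_i + y_i = 1` which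
satisfy given signed binomial equations `∏ u_v ^ p_v = ± ∏ u_v ^ q_v`. -/
def IsUnitScheme (X : Sch ℤ) : Prop :=
  ∃ (I : Type) (_ : Fintype I) (S : Set (SBin (I ⊕ I))), X = uspace ℤ S

/-- The used properties of the groups `H n i X = H^i(X_et, ℤ^c(n))`, `n < 0`: invariance under
isomorphisms, and exactness of `H^i(Z_et, ℤ^c(n)) → H^i(X_et, ℤ^c(n)) → H^i(U_et, ℤ^c(n))` for a closed
subscheme `Z` of an arithmetic scheme `X` and its complement `U` (Geisser). -/
structure IsCycleCohomology (H : ℤ → ℤ → Sch ℤ → Type w) [∀ n i X, AddCommGroup (H n i X)] :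
    Prop where
  iso : ∀ n < 0, ∀ {X Y : Sch ℤ}, FT True X → Nonempty (X ≅ Y) → ∀ i, Nonempty (H n i X ≃+ H n i Y)
  localization : ∀ n < 0, ∀ {Z X U : Sch ℤ} (a : Z ⟶ X) (b : U ⟶ X), FT True X → IsTriple a b →
    ∀ i, ∃ (p : H n i Z →+ H n i X) (r : H n i X →+ H n i U), ∀ x, r x = 0 ↔ ∃ z, p z = x

/-- A Serre class of abelian groups: it contains with a group the isomorphic groups, and if `A → B → C` is
exact at `B` and it contains `A` and `C`, then it contains `B`. -/
structure IsSerreClass (S : (A : Type w) → [AddCommGroup A] → Prop) : Prop where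
  iso : ∀ {A B : Type w} [AddCommGroup A] [AddCommGroup B], Nonempty (A ≃+ B) → S A → S B
  exact : ∀ {A B C : Type w} [AddCommGroup A] [AddCommGroup B] [AddCommGroup C] (f : A →+ B)
    (g : B →+ C), (∀ x, g x = 0 ↔ ∃ z, f z = x) → S A → S C → S B

/-- The schemes in the class `K` which are empty, or integral with the property `Sm`. -/
def Nice (K Sm : Sch ℤ → Prop) (X : Sch ℤ) : Prop := K X ∧ Good Sm X

lemma ext_serre {H : ℤ → ℤ → Sch ℤ → Type w} [∀ n i X, AddCommGroup (H n i X)]
    (hH : IsCycleCohomology H) {S : (A : Type w) → [AddCommGroup A] → Prop} (hS : IsSerreClass S)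
    {n : ℤ} (hn : n < 0) (i : ℤ) : Ext True fun X => S (H n i X) where
  iso hX e h := hS.iso (hH.iso n hn hX e i) h
  total a b hX ht hZ hU := by
    obtain ⟨p, r, h⟩ := hH.localization n hn a b hX ht i
    exact hS.exact p r h hZ hU

/-- The finitely generated groups are a Serre class. -/
lemma serre_fg : IsSerreClass.{w} fun A _ => AddGroup.FG A where
  iso e h := by
    obtain ⟨e⟩ := e
    exact AddGroup.fg_of_surjective (f := e.toAddMonoidHom) e.surjective
  exact f g h hA hC := fg_of_exact f g h hA hC

/-- **Theorem.** The class of the schemes of dimension at most `d` is hereditary, smoothness over `ℤ` or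
over a prime field is a generic property, and the finitely generated abelian groups are a Serre class.
Let `H n i X` be groups with the used properties of the groups `H^i(X_et, ℤ^c(n))`, let `S` be a Serre
class of abelian groups, `K` a hereditary class of schemes over `ℤ`, `Sm` a generic property, `n < 0` and
`i` integers. The following are equivalent:
(1) `H n i X` is in `S` for all arithmetic schemes `X` in `K`;
(2) `H n i X` is in `S` for the realization spaces in `K` which are empty or integral with the property
`Sm`;
(3) `H n i X` is in `S` for the schemes of solutions of unit equations in `K` which are empty or integral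
with the property `Sm`. -/
theorem result :
    (∀ d : WithBot ℕ∞, Hered True fun X : Sch ℤ => topologicalKrullDim X.left ≤ d) ∧
    (Generic fun X : Sch ℤ => SmoothOverPrime X.left) ∧
    (IsSerreClass.{w} fun A _ => AddGroup.FG A) ∧
    ∀ (H : ℤ → ℤ → Sch ℤ → Type w) [∀ n i X, AddCommGroup (H n i X)], IsCycleCohomology H →
      ∀ S : (A : Type w) → [AddCommGroup A] → Prop, IsSerreClass S →
      ∀ K Sm : Sch ℤ → Prop, Hered True K → Generic Sm → ∀ n < 0, ∀ i : ℤ, List.TFAE [
        ∀ X : Sch ℤ, LocallyOfFiniteType X.hom → QuasiCompact X.hom → IsSeparated X.hom → K X →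
          S (H n i X),
        ∀ X : Sch ℤ, IsRealizationSpace X → Nice K Sm X → S (H n i X),
        ∀ X : Sch ℤ, IsUnitScheme X → Nice K Sm X → S (H n i X)] := by
  refine ⟨fun d => hered_dim True d, generic_smooth, serre_fg, fun H _ hH S hS K Sm hK hSm n hn i => ?_⟩
  obtain ⟨h1, h2⟩ := three_gen presents_int (ext_serre hH hS hn i) hK hSm
  tfae_have 1 → 2 := by
    rintro h X ⟨E, _, π, rfl⟩ ⟨hKX, -⟩
    exact h _ (ft_aff True).1 (ft_aff True).2 ((ft_aff True).3 trivial) hKX
  tfae_have 1 → 3 := by
    rintro h X ⟨I, _, S, rfl⟩ ⟨hKX, -⟩
    exact h _ (ft_aff True).1 (ft_aff True).2 ((ft_aff True).3 trivial) hKX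
  tfae_have 2 → 1 := fun h X a b c hKX =>
    h1.mpr (fun E _ π hKπ hg => h _ ⟨E, _, π, rfl⟩ ⟨hKπ, hg⟩) X ⟨a, b, fun _ => c⟩ hKX
  tfae_have 3 → 1 := fun h X a b c hKX =>
    h2.mpr (fun I _ S hKπ hg => h _ ⟨I, _, S, rfl⟩ ⟨hKπ, hg⟩) X ⟨a, b, fun _ => c⟩ hKX
  tfae_finish

end Pool.Agent.Results.MP_e93a6a_ag.RealizationSpaces
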