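import Pool.Agent.U436.HP.Strata

/-!
# New members of Morin's class `L(ℤ)`: strata of diagonal complete intersections

Let `k` be an algebraically closed field (here: an algebraic closure of a finite field), `n ≥ 1` invertible in `k`,
`p 1, …, p N ∈ k` distinct, `c 1, …, c N ∈ k` nonzero, and let `X ⊆ ℙ^(N-1)` be given by the `m` equations
`∑ i, c i * p i ^ j * x i ^ n = 0`, `0 ≤ j < m`, `N = m + d + 1`. Then:

* At most `d` coordinates of a point of `X` are zero.
* For a subset `S` of the coordinates let `X_S` be the intersection of `X` with the subspace where the coordinates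
  outside of `S` are zero (`S` is given by an injective map `g`). Then `X_S` is the variety of the same kind with the
  points `p i` and coefficients `c i`, `i ∈ S`.
* If `S` has `m + d' + 1` elements then `X_S` satisfies the Jacobian criterion, so it is smooth of dimension `d'`,
  and if `d' ≥ 1` it is a finite quotient of a power of a smooth curve `C_S`: for suitable nonzero constants the
  coordinatewise product `(y 1, …, y d') ↦ (lam i * ∏ j, y j i)` is defined everywhere on `C_S ^ d'` and maps it
  onto `X_S`, and the fibres are the orbits of the group of the pairs of a permutation and a tuple of vectors of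
  `n`-th roots of unity with scalar product.

So if the `p i` and `c i` are in a finite field `F` then `X` and all the `X_S` are in the class `A(F)` of the problem:
over a finite extension of `F` they are retracts of products of curves, up to a constant multiple, by the
graph of the finite surjective map. By two out of three all unions of strata `X_S \ ⋃_{T ⊂ S} X_T` are in the class
`L(ℤ)`, in particular the complement `U` of the coordinate hyperplanes in `X`, and (étale descent) all the quotients
of `U` by groups of diagonal matrices; these are all the tame abelian coverings with exponent `n` of the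
complement of `N` osculating hyperplanes of a rational normal curve of `ℙ^d`. Finite generation (Q1) holds for
all of them, in all dimensions, by Morin's theorem.
-/

set_option autoImplicit false

namespace Pool.Agent.Results.MP_e93a6a_ag.StratifiedHadamardPowers

open Pool.Agent.U436.HP Finset

theorem result (k : Type) [Field k] [IsAlgClosed k] (n N m d : ℕ) (hn : (n : k) ≠ 0) (hN : m + d + 1 = N)
    (p c : Fin N → k) (hp : Function.Injective p) (hc : ∀ i, c i ≠ 0) :
    (∀ x ∈ pts n m p c, {i | x i = 0}.ncard ≤ d) ∧
    ∀ (N' d' : ℕ) (g : Fin N' → Fin N), Function.Injective g → m + d' + 1 = N' →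
      (∀ x : Fin N' → k, Function.extend g x 0 ∈ pts n m p c ↔ x ∈ pts n m (p ∘ g) (c ∘ g)) ∧
      (∀ x ∈ pts n m (p ∘ g) (c ∘ g), LinearIndependent k fun (j : Fin m) (i : Fin N') =>
        MvPolynomial.eval x (MvPolynomial.pderiv i (form n (p ∘ g) (c ∘ g) j))) ∧
      (1 ≤ d' →
        (∀ y ∈ curve n (p ∘ g), LinearIndependent k fun (j : Fin (N' - 2)) (i : Fin N') =>
          MvPolynomial.eval y (MvPolynomial.pderiv i (form n (p ∘ g) (wt (p ∘ g)) j))) ∧
        ∃ lam : Fin N' → k, (∀ i, lam i ≠ 0) ∧
          (∀ y : Fin d' → Fin N' → k, (∀ j, y j ∈ curve n (p ∘ g)) →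
            (fun i => lam i * ∏ j, y j i) ∈ pts n m (p ∘ g) (c ∘ g)) ∧
          (∀ x ∈ pts n m (p ∘ g) (c ∘ g), ∃ y : Fin d' → Fin N' → k,
            (∀ j, y j ∈ curve n (p ∘ g)) ∧ ∀ i, x i = lam i * ∏ j, y j i) ∧
          (∀ y y' : Fin d' → Fin N' → k, (∀ j, y j ∈ curve n (p ∘ g)) → (∀ j, y' j ∈ curve n (p ∘ g)) →
            ((∃ t : k, t ≠ 0 ∧ ∀ i, lam i * ∏ j, y' j i = t * (lam i * ∏ j, y j i)) ↔
              ∃ (σ : Equiv.Perm (Fin d')) (ζ : Fin d' → Fin N' → k) (τ : k) (s : Fin d' → k),
                (∀ j i, ζ j i ^ n = 1) ∧ (∀ i, ∏ j, ζ j i = τ) ∧ (∀ j, s j ≠ 0) ∧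
                  ∀ j i, y' j i = s j * (ζ j i * y (σ j) i)))) := by
  classical
  have hn0 : n ≠ 0 := by rintro rfl; simp at hn
  refine ⟨fun x hx => ?_, fun N' d' g hg hN' => ⟨fun x => stratum hn0 p c hg x, fun x hx => ?_, fun hd => ⟨?_, ?_⟩⟩⟩
  · have h := card_zeros_le hn0 hp hc hN hx
    have h2 : {i | x i = 0} = ((univ.filter fun i => x i = 0 : Finset (Fin N)) : Set (Fin N)) := by
      ext i; simp
    rw [h2, Set.ncard_coe_finset]
    exact h
  · exact smooth hn (hp.comp hg) (fun i => hc (g i)) hN' hx
  · intro y hy
    exact smooth (d := 1) hn (hp.comp hg) (fun i => wt_ne_zero (hp.comp hg) i) (by omega) hy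
  · obtain ⟨lam, h0, h1⟩ := exists_lam hn0 (hp.comp hg) (c := c ∘ g) (fun i => hc (g i))
    exact ⟨lam, h0, fun y hy => prod_mem hn0 (hp.comp hg) hd hN' h1 y hy,
      fun x hx => exists_prod hn0 (hp.comp hg) (fun i => hc (g i)) hd hN' h1 hx,
      fun y y' hy hy' => prod_eq_iff hn0 (hp.comp hg) hd hN' h0 hy hy'⟩

end Pool.Agent.Results.MP_e93a6a_ag.StratifiedHadamardPowers
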