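import Pool.Agent.U745.UN.Loc

/-!
# Finite generation of `H^i(X_et, ℤ^c(n))` in negative weights and three-term bilinear systems

For a separated scheme `X` of finite type over `ℤ` and `n < 0` let `H n i X = H^i(X_et, ℤ^c(n))`.  The
structure `IsCycleCohomology` collects the properties of these groups which are used; all of them are known:
invariance under isomorphisms, the localization sequence of a closed subscheme and its complement
(Geisser), the formula `H^i((𝔸^1_X)_et, ℤ^c(n)) = H^{i+2}(X_et, ℤ^c(n-1))` for `n ≤ 0` (Morin), and, as a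
consequence of both, `H^i((X × 𝔾_m)_et, ℤ^c(n)) = H^{i+2}(X_et, ℤ^c(n-1)) ⊕ H^{i+1}(X_et, ℤ^c(n))`.

We prove that Q1 is equivalent to the finite generation of the groups `H^i(Y_et, ℤ^c(-1))` for the affine
schemes `Y` given by systems of bilinear equations `∑_{(i, j) ∈ E_l} x_i y_j = 0` over `ℤ` in which every
equation has at most three terms (and coefficients `1`).  The same reduction is true for every fixed weight
`n < 0`.
-/

set_option autoImplicit false

open CategoryTheory CategoryTheory.Limits AlgebraicGeometry MvPolynomial Pool.Agent.Y116.UV Pool.Agent.Q193.LT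
  Pool.Agent.Q282.UK Pool.Agent.Q282.UZ

universe w

namespace Pool.Agent.Results.MP_e93a6a_ag.ThreeTermSystems

/-- **The properties of the groups `H n i X = H^i(X_et, ℤ^c(n))`, `n < 0`, which are used**: invariance under
isomorphisms; a long exact sequence `⋯ → H n i Z → H n i X → H n i U → H n (i + 1) Z → ⋯` for a closed
subscheme `Z` of `X` and its complement `U`; `H n i (B[t]) = H (n - 1) (i + 2) B` and
`H n i (B[t, t⁻¹]) = H (n - 1) (i + 2) B ⊕ H n (i + 1) B` for rings `B` of finite type over `ℤ`. -/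
structure IsCycleCohomology (H : ℤ → ℤ → Sch ℤ → ModuleCat.{w} ℤ) : Prop where
  iso : ∀ n < 0, ∀ {X Y : Sch ℤ}, FT True X → Nonempty (X ≅ Y) → ∀ i, Nonempty (H n i X ≅ H n i Y)
  les : ∀ n < 0, ∀ {Z X U : Sch ℤ} (i : Z ⟶ X) (j : U ⟶ X), FT True X → IsTriple i j →
    ∃ l : LesMaps (H n) (Equiv.addRight 1) Z X U, l.IsExact
  line : ∀ n < 0, ∀ (B : Type) [CommRing B] [Algebra ℤ B] [Algebra.FiniteType ℤ B] (i : ℤ),
    Nonempty (H n i (aff ℤ (Polynomial B)) ≅ H (n - 1) (i + 2) (aff ℤ B))
  torus : ∀ n < 0, ∀ (B : Type) [CommRing B] [Algebra ℤ B] [Algebra.FiniteType ℤ B] (i : ℤ),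
    Nonempty (H n i (aff ℤ (LaurentPolynomial B)) ≅
      H (n - 1) (i + 2) (aff ℤ B) ⊞ H n (i + 1) (aff ℤ B))

/-- All groups `H^i(X_et, ℤ^c(n))`, `i ∈ ℤ`, are finitely generated (`X` and the weight `n` are fixed). -/
def Finite (H : ℤ → ℤ → Sch ℤ → ModuleCat.{w} ℤ) (n : ℤ) (X : Sch ℤ) : Prop :=
  ∀ i : ℤ, Module.Finite ℤ (H n i X)

/-- `P` is true for all arithmetic schemes (separated and of finite type over `ℤ`). -/
def ForArithmetic (P : Sch ℤ → Prop) : Prop :=
  ∀ X : Sch ℤ, LocallyOfFiniteType X.hom → QuasiCompact X.hom → IsSeparated X.hom → P X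

/-- `P` is true for all affine schemes over `ℤ` given by systems of bilinear equations
`∑_{(i, j) ∈ E_l} x_i y_j = 0`, `l = 1, …, c`, with at most three terms in every equation. -/
def ForThreeTermSystems (P : Sch ℤ → Prop) : Prop :=
  ∀ (a b c : ℕ) (E : Fin c → Finset (Fin a × Fin b)), (∀ l, (E l).card ≤ 3) →
    P (aff ℤ (MvPolynomial (Fin a ⊕ Fin b) ℤ ⧸ Ideal.span (Set.range fun l =>
      ∑ e ∈ E l, (X (Sum.inl e.1) * X (Sum.inr e.2) : MvPolynomial (Fin a ⊕ Fin b) ℤ))))

/-- **Q1**: for every arithmetic scheme `X`, every `n < 0` and every `i` the group `H^i(X_et, ℤ^c(n))` is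
finitely generated. -/
def Q1 (H : ℤ → ℤ → Sch ℤ → ModuleCat.{w} ℤ) : Prop :=
  ForArithmetic fun X => ∀ n < 0, ∀ i : ℤ, Module.Finite ℤ (H n i X)

variable {H : ℤ → ℤ → Sch ℤ → ModuleCat.{w} ℤ}

lemma clo (hH : IsCycleCohomology H) {n : ℤ} (hn : n < 0) : Clo True (Finite H n) where
  iso {X Y} hX e h i := by
    obtain ⟨e'⟩ := hH.iso n hn hX e i
    have := h i
    exact Module.Finite.equiv e'.toLinearEquiv
  total i j hX ht hZ hU := by
    obtain ⟨m, h⟩ := hH.les n hn i j hX ht
    exact LesMaps.mid serre_finite h hZ hU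
  opened i j hX ht hZ hX' := by
    obtain ⟨m, h⟩ := hH.les n hn i j hX ht
    exact LesMaps.right serre_finite h hZ hX'
  torus B _ _ _ h q := by
    obtain ⟨e⟩ := hH.torus n hn B (q - 1)
    have h1 : Module.Finite ℤ (H n (q - 1 + 1) (aff ℤ B)) :=
      serre_finite.of_epi (e.hom ≫ biprod.snd) (h (q - 1))
    rwa [sub_add_cancel] at h1

lemma all_iff {P : Sch ℤ → Prop} : ForArithmetic P ↔ ∀ X : Sch ℤ, FT True X → P X :=
  ⟨fun h X hX => h X hX.1 hX.2 (hX.3 trivial), fun h X h1 h2 h3 => h X ⟨h1, h2, fun _ => h3⟩⟩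

/-- The reduction to three-term systems for a fixed weight. -/
lemma fixed (hH : IsCycleCohomology H) {n : ℤ} (hn : n < 0) :
    ForArithmetic (Finite H n) ↔ ForThreeTermSystems (Finite H n) :=
  all_iff.trans (three_iff short_int (clo hH hn))

/-- From the weight `n` to the weight `n - 1`. -/
lemma step (hH : IsCycleCohomology H) {n : ℤ} (hn : n < 0) (h : ForArithmetic (Finite H n)) :
    ForArithmetic (Finite H (n - 1)) := by
  rw [all_iff] at h ⊢
  have hc := clo hH (show n - 1 < 0 by omega)
  intro X hX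
  refine of_affine' hc.iso hc.total (fun B _ _ _ i => ?_) X hX
  obtain ⟨e⟩ := hH.line n hn B (i - 2)
  have : Algebra.FiniteType ℤ (Polynomial B) :=
    Algebra.FiniteType.trans (S := B) inferInstance inferInstance
  have h1 := h (aff ℤ (Polynomial B)) (ft_aff True) (i - 2)
  have h2 : Module.Finite ℤ (H (n - 1) (i - 2 + 2) (aff ℤ B)) := Module.Finite.equiv e.toLinearEquiv
  rwa [sub_add_cancel] at h2

lemma q1_iff (hH : IsCycleCohomology H) : Q1 H ↔ ForArithmetic (Finite H (-1)) := by
  constructor
  · intro h X h1 h2 h3 i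
    exact h X h1 h2 h3 (-1) (by norm_num) i
  · intro h
    have hall : ∀ r : ℕ, ForArithmetic (Finite H (-1 - r)) := by
      intro r
      induction r with
      | zero => simpa using h
      | succ r ih =>
        have := step hH (by omega) ih
        have e : -1 - (r : ℤ) - 1 = -1 - ((r + 1 : ℕ) : ℤ) := by
          push_cast
          ring
        rwa [e] at this
    intro X h1 h2 h3 n hn i
    have := hall (-1 - n).toNat X h1 h2 h3 i
    have e : -1 - (((-1 - n).toNat : ℕ) : ℤ) = n := by
      rw [Int.toNat_of_nonneg (by omega)]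
      ring
    rwa [e] at this

/-- **Theorem.** Let `H n i X`, `n < 0`, be a family of abelian groups with the properties
`IsCycleCohomology` of the groups `H^i(X_et, ℤ^c(n))`.
(1) Q1 is true if and only if for all schemes `Y` over `ℤ` given by systems of bilinear equations with at
most three terms the groups `H (-1) i Y` are finitely generated.
(2) Q1 is true if and only if it is true in the weight `-1`.
(3) For every fixed `n < 0` the groups `H n i X` are finitely generated for all arithmetic schemes `X` if and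
only if this is true for the systems of bilinear equations with at most three terms. -/
theorem result (H : ℤ → ℤ → Sch ℤ → ModuleCat.{w} ℤ) (hH : IsCycleCohomology H) :
    (Q1 H ↔ ForThreeTermSystems (Finite H (-1))) ∧
    (Q1 H ↔ ForArithmetic (Finite H (-1))) ∧
    ∀ n < 0, (ForArithmetic (Finite H n) ↔ ForThreeTermSystems (Finite H n)) :=
  ⟨(q1_iff hH).trans (fixed hH (by norm_num)), q1_iff hH, fun _ hn => fixed hH hn⟩

end Pool.Agent.Results.MP_e93a6a_ag.ThreeTermSystems
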